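import Pool.Agent.H75.PRL.S6

/-!
# GDF: almost all the curves of the family are good
-/

set_option autoImplicit false

namespace Pool.PRL

open Polynomial Matrix Pool.AVR Pool.AVS Pool.RZ

/-- Markov's inequality for a finite set. -/
lemma gdf_markov {α : Type} (Φ : Finset α) (B : α → ℝ) (hB : ∀ f ∈ Φ, 0 ≤ B f) (a : ℝ)
    (A : Finset α) (hA : A ⊆ Φ) (h : ∀ f ∈ A, a ≤ B f) :
    a * (A.card : ℝ) ≤ ∑ f ∈ Φ, B f := by
  calc a * (A.card : ℝ) = ∑ f ∈ A, a := by simp [mul_comm]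
    _ ≤ ∑ f ∈ A, B f := Finset.sum_le_sum h
    _ ≤ ∑ f ∈ Φ, B f := Finset.sum_le_sum_of_subset_of_nonneg hA fun f hf _ => hB f hf

/-- The abstract first moment argument. -/
lemma gdf_abs {α X : Type} [Fintype X] [DecidableEq X] (Φ : Set α) (hΦ : Φ.Finite)
    (Q : α → (X → Ty) → Prop) (c : α → (X → Ty) → ℝ) (T1 : Finset X) (DD : Finset (Finset X))
    (η s t a : ℝ) (hc : ∀ f ∈ Φ, ∀ m, 0 ≤ c f m) (hQ : ∀ f ∈ Φ, ∀ m, m ∈ {m : X → Ty | ∀ v, m v ≠ (1, 1)} → Q f m → 1 ≤ c f m)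
    (hs : ∀ m : X → Ty, (∀ v, m v ≠ (1, 1)) → ∑ᶠ f ∈ Φ, c f m ≤ s)
    (hs0 : 0 ≤ s)
    (ht : ∀ D : Finset X, ({m | m ∈ LS D ∧ ¬ Bal η T1 D m}.ncard : ℝ) ≤ t) :
    a * ({f | f ∈ Φ ∧ ¬ (({D | D ∈ DD ∧ ∃ m : X → Ty, m ≠ 0 ∧ m ∈ LS D ∧
      ¬ Bal η T1 D m ∧ Q f m}.ncard : ℝ) ≤ a)}.ncard : ℝ) ≤ (DD.card : ℝ) * (t * s) := by
  classical
  set Φf : Finset α := hΦ.toFinset with hΦf
  have hmem : ∀ f, f ∈ Φf ↔ f ∈ Φ := fun f => by simp [hΦf]
  set bad : Finset X → Finset (X → Ty) := fun D =>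
    Finset.univ.filter fun m => m ∈ LS D ∧ ¬ Bal η T1 D m with hbad
  have hbadc : ∀ D, ((bad D).card : ℝ) ≤ t := by
    intro D
    have h1 := ht D
    have h2 : {m | m ∈ LS D ∧ ¬ Bal η T1 D m} = ((bad D : Finset (X → Ty)) : Set (X → Ty)) := by
      ext m; simp [hbad]
    rw [h2, Set.ncard_coe_finset] at h1
    exact h1
  have hLS : ∀ D : Finset X, ∀ m ∈ LS D, ∀ v, m v ≠ ((1, 1) : Ty) := by
    intro D m hm v hv
    have h1 := hm v
    rw [hv] at h1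
    split_ifs at h1 <;> simp at h1
  set B : α → ℝ := fun f => ∑ D ∈ DD, ∑ m ∈ bad D, c f m with hB
  have hB0 : ∀ f ∈ Φf, 0 ≤ B f := fun f hf =>
    Finset.sum_nonneg fun D _ => Finset.sum_nonneg fun m _ => hc f ((hmem f).1 hf) m
  set A : Finset α := Φf.filter fun f => ¬ (({D | D ∈ DD ∧ ∃ m : X → Ty, m ≠ 0 ∧ m ∈ LS D ∧
      ¬ Bal η T1 D m ∧ Q f m}.ncard : ℝ) ≤ a) with hA
  have hAs : {f | f ∈ Φ ∧ ¬ (({D | D ∈ DD ∧ ∃ m : X → Ty, m ≠ 0 ∧ m ∈ LS D ∧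
      ¬ Bal η T1 D m ∧ Q f m}.ncard : ℝ) ≤ a)} = (A : Set α) := by
    ext f
    simp only [Set.mem_ofPred_eq, hA, Finset.coe_filter, hmem]
  rw [hAs, Set.ncard_coe_finset]
  have hle : ∀ f ∈ A, a ≤ B f := by
    intro f hf
    rw [hA, Finset.mem_filter, hmem] at hf
    obtain ⟨hfΦ, hf2⟩ := hf
    push Not at hf2
    refine hf2.le.trans ?_
    have h1 : {D | D ∈ DD ∧ ∃ m : X → Ty, m ≠ 0 ∧ m ∈ LS D ∧
      ¬ Bal η T1 D m ∧ Q f m} = ((DD.filter fun D => ∃ m : X → Ty, m ≠ 0 ∧ m ∈ LS D ∧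
      ¬ Bal η T1 D m ∧ Q f m : Finset (Finset X)) : Set (Finset X)) := by
      ext D; simp
    rw [h1, Set.ncard_coe_finset, Finset.card_filter]
    push_cast
    rw [hB]
    refine Finset.sum_le_sum fun D hD => ?_
    split_ifs with h
    · obtain ⟨m, hm0, hmL, hmB, hmQ⟩ := h
      calc (1 : ℝ) ≤ c f m := hQ f hfΦ m (hLS D m hmL) hmQ
        _ ≤ ∑ m ∈ bad D, c f m := Finset.single_le_sum (f := fun m => c f m)
            (fun m _ => hc f hfΦ m) (by simp [hbad, hmL, hmB])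
    · exact Finset.sum_nonneg fun m _ => hc f hfΦ m
  refine (gdf_markov Φf B hB0 a A (Finset.filter_subset _ _) hle).trans ?_
  rw [hB, Finset.sum_comm]
  have h2 : ∀ D ∈ DD, ∑ f ∈ Φf, ∑ m ∈ bad D, c f m ≤ t * s := by
    intro D hD
    rw [Finset.sum_comm]
    calc ∑ m ∈ bad D, ∑ f ∈ Φf, c f m ≤ ∑ m ∈ bad D, s := by
          refine Finset.sum_le_sum fun m hm => ?_
          have h3 := hs m (hLS D m (by
            simp only [hbad, Finset.mem_filter, Finset.mem_univ, true_and] at hm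
            exact hm.1))
          rw [finsum_mem_eq_finite_toFinset_sum _ hΦ] at h3
          exact h3
      _ = ((bad D).card : ℝ) * s := by simp
      _ ≤ t * s := mul_le_mul_of_nonneg_right (hbadc D) hs0
  calc ∑ D ∈ DD, ∑ f ∈ Φf, ∑ m ∈ bad D, c f m ≤ ∑ D ∈ DD, t * s := Finset.sum_le_sum h2
    _ = (DD.card : ℝ) * (t * s) := by simp

/-- The cardinality of a slice. -/
lemma gdf_sl {X : Type} [Fintype X] [DecidableEq X] (T1 D2 : Finset X) (j : ℕ) :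
    (sl T1 D2 j).card ≤ T1.card.choose j := by
  rw [← Finset.card_powersetCard]
  have hmem : ∀ D : Finset X, D ∈ ((sl T1 D2 j : Finset (Finset X)) : Set (Finset X)) →
      D \ T1 = D2 ∧ (D ∩ T1).card = j := by
    intro D hD
    have h1 : D ∈ sl T1 D2 j := hD
    rw [sl, Finset.mem_filter] at h1
    exact h1.2
  refine Finset.card_le_card_of_injOn (fun D => D ∩ T1) ?_ ?_
  · intro D hD
    have h1 : D ∩ T1 ∈ T1.powersetCard j :=
      Finset.mem_powersetCard.2 ⟨Finset.inter_subset_right, (hmem D hD).2⟩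
    exact h1
  · intro D hD D' hD' h
    have h' : D ∩ T1 = D' ∩ T1 := h
    rw [← Finset.sdiff_union_inter D T1, ← Finset.sdiff_union_inter D' T1, (hmem D hD).1,
      (hmem D' hD').1, h']

/-- The bound for one `D2`, for an arbitrary finite type of places. -/
lemma gdf_one {α X : Type} [Fintype X] [DecidableEq X] (Φ : Set α) (hΦ : Φ.Finite)
    (Q : α → (X → Ty) → Prop) (c : α → (X → Ty) → ℝ) (T1 D2 : Finset X) (j : ℕ)
    (hT1 : T1.card = 2 * j + 1) (η ε : ℝ) (hη : 0 < η) (hε : 0 < ε)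
    (hc : ∀ f ∈ Φ, ∀ m, 0 ≤ c f m)
    (hQ : ∀ f ∈ Φ, ∀ m, m ∈ {m : X → Ty | ∀ v, m v ≠ (1, 1)} → Q f m → 1 ≤ c f m)
    (hs : ∀ m : X → Ty, (∀ v, m v ≠ (1, 1)) →
      ∑ᶠ f ∈ Φ, c f m ≤ (2 / 2 ^ Fintype.card X + 1 / 2 ^ Fintype.card X) * Φ.ncard)
    (ht : ∀ D : Finset X, ({m | m ∈ LS D ∧ ¬ Bal η T1 D m}.ncard : ℝ) ≤
      (ε * η / 24) * 2 ^ Fintype.card X) :
    ({f | f ∈ Φ ∧ ¬ (({D | D ∈ sl T1 D2 j ∪ sl T1 D2 (j + 1) ∧ ∃ m : X → Ty, m ≠ 0 ∧ m ∈ LS D ∧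
      ¬ Bal η T1 D m ∧ Q f m}.ncard : ℝ) ≤ η * ((2 * j + 1).choose j : ℝ))}.ncard : ℝ) ≤
      ε / 4 * Φ.ncard := by
  have hCpos : 0 < (((2 * j + 1).choose j : ℕ) : ℝ) := by
    exact_mod_cast Nat.choose_pos (by omega)
  have hpos : (0 : ℝ) < 2 ^ Fintype.card X := by positivity
  have h := gdf_abs Φ hΦ Q c T1 (sl T1 D2 j ∪ sl T1 D2 (j + 1)) η
    ((2 / 2 ^ Fintype.card X + 1 / 2 ^ Fintype.card X) * Φ.ncard)
    ((ε * η / 24) * 2 ^ Fintype.card X) (η * ((2 * j + 1).choose j : ℝ)) hc hQ hs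
    (by positivity) ht
  have hcard : ((sl T1 D2 j ∪ sl T1 D2 (j + 1)).card : ℝ) ≤ 2 * ((2 * j + 1).choose j : ℝ) := by
    have h1 := Finset.card_union_le (sl T1 D2 j) (sl T1 D2 (j + 1))
    have h2 := gdf_sl T1 D2 j
    have h3 := gdf_sl T1 D2 (j + 1)
    rw [hT1] at h2 h3
    have h4 : (2 * j + 1).choose (j + 1) = (2 * j + 1).choose j := by
      rw [← Nat.choose_symm_half]
    rw [h4] at h3
    have h5 : (sl T1 D2 j ∪ sl T1 D2 (j + 1)).card ≤ 2 * (2 * j + 1).choose j := by omega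
    exact_mod_cast h5
  have hts : ((ε * η / 24) * 2 ^ Fintype.card X) *
      ((2 / 2 ^ Fintype.card X + 1 / 2 ^ Fintype.card X) * (Φ.ncard : ℝ)) =
      ε * η / 8 * Φ.ncard := by
    field_simp
    ring
  rw [hts] at h
  have h6 : η * ((2 * j + 1).choose j : ℝ) * ({f | f ∈ Φ ∧ ¬ (({D | D ∈ sl T1 D2 j ∪
      sl T1 D2 (j + 1) ∧ ∃ m : X → Ty, m ≠ 0 ∧ m ∈ LS D ∧
      ¬ Bal η T1 D m ∧ Q f m}.ncard : ℝ) ≤ η * ((2 * j + 1).choose j : ℝ))}.ncard : ℝ) ≤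
      η * ((2 * j + 1).choose j : ℝ) * (ε / 4 * Φ.ncard) := by
    refine h.trans ?_
    calc ((sl T1 D2 j ∪ sl T1 D2 (j + 1)).card : ℝ) * (ε * η / 8 * Φ.ncard)
        ≤ (2 * ((2 * j + 1).choose j : ℝ)) * (ε * η / 8 * Φ.ncard) :=
          mul_le_mul_of_nonneg_right hcard (by positivity)
      _ = η * ((2 * j + 1).choose j : ℝ) * (ε / 4 * Φ.ncard) := by ring
  exact le_of_mul_le_mul_left h6 (by positivity)

section

variable {F : Type} [Field F]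

open Classical in
lemma gdf_ex_zero (T : Finset F[X]) : ex T (0 : {P : F[X] // P ∈ T} → Ty) = fun _ => 0 := by
  funext P
  unfold ex
  split_ifs <;> rfl

lemma gdf_ex_ne (T : Finset F[X]) (m : {P : F[X] // P ∈ T} → Ty) (h : ∀ v, m v ≠ (1, 1)) :
    ∀ P ∈ T, ex T m P ≠ (1, 1) := by
  intro P hP
  unfold ex
  rw [dif_pos hP]
  exact h ⟨P, hP⟩

open Classical in
lemma gdf_sb_card (T S : Finset F[X]) (h : S ⊆ T) : (sb T S).card = S.card := by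
  unfold sb
  refine Finset.card_bij (fun P _ => (P : F[X])) ?_ ?_ ?_
  · intro P hP
    exact (Finset.mem_filter.1 hP).2
  · intro P _ P' _ hPP
    exact Subtype.ext hPP
  · intro P hP
    exact ⟨⟨P, h hP⟩, Finset.mem_filter.2 ⟨Finset.mem_univ _, hP⟩, rfl⟩

end

theorem gdf (hAVP : AVPStmt) (hBLC : BLCStmt) : GDFStmt := by
  classical
  intro F _ _ h2 ε η hε hη
  obtain ⟨k1, hk1⟩ := hBLC (ε * η / 24) η (by positivity) hη
  obtain ⟨k2, hk2⟩ := exists_nat_gt (6 / ε)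
  refine ⟨max k1 k2, ?_⟩
  intro T1 T2 j hdis hEv hT2 hT1 hj
  have hj1 : k1 ≤ j := (le_max_left _ _).trans hj
  have hj2 : k2 ≤ j := (le_max_right _ _).trans hj
  set T : Finset F[X] := T1 ∪ T2 with hT
  have hTcard : T.card = 2 * j + 3 := by
    rw [hT, Finset.card_union_of_disjoint hdis, hT1, hT2]
  have hXcard : Fintype.card {P : F[X] // P ∈ T} = T.card := Fintype.card_coe T
  obtain ⟨-, havg⟩ := hAVP F h2 T hEv
  have hpos : (0 : ℝ) < 1 / 2 ^ T.card := by positivity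
  -- one `N` for all the patterns
  have hN : ∀ m : {P : F[X] // P ∈ T} → Ty, ∃ N : ℕ, (∀ v, m v ≠ (1, 1)) → ∀ n : ℕ, N ≤ n →
      (FmT F n T).Finite ∧ (∀ f ∈ FmT F n T, (PatR f T (ex T m)).Finite) ∧
      ∑ᶠ f ∈ FmT F n T, ((PatR f T (ex T m)).ncard : ℝ) ≤
        (2 / 2 ^ T.card + 1 / 2 ^ T.card) * (FmT F n T).ncard := by
    intro m
    by_cases hm : ∀ v, m v ≠ (1, 1)
    · obtain ⟨N, hN⟩ := havg (ex T m) (gdf_ex_ne T m hm) _ hpos
      exact ⟨N, fun _ => hN⟩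
    · exact ⟨0, fun h => absurd h hm⟩
  choose NN hNN using hN
  refine ⟨Finset.univ.sup NN, ?_⟩
  intro n hn
  have hn' : ∀ m, NN m ≤ n := fun m => (Finset.le_sup (Finset.mem_univ m)).trans hn
  have h0ne : ∀ v, (0 : {P : F[X] // P ∈ T} → Ty) v ≠ (1, 1) := by
    intro v h
    have h1 := congrArg Prod.fst h
    simp at h1
  have hfin : (FmT F n T).Finite := (hNN 0 h0ne n (hn' 0)).1
  refine ⟨hfin, ?_⟩
  set Φ : Set (F[X] × F[X] × F[X]) := FmT F n T with hΦ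
  -- first bad set
  have hA0 : ({f | f ∈ Φ ∧ (PatR f T (fun _ => 0)).Nonempty}.ncard : ℝ) ≤ ε / 2 * Φ.ncard := by
    have h3 := (hNN 0 h0ne n (hn' 0)).2
    rw [gdf_ex_zero] at h3
    obtain ⟨h3a, h3b⟩ := h3
    rw [finsum_mem_eq_finite_toFinset_sum _ hfin] at h3b
    have h4 : {f | f ∈ Φ ∧ (PatR f T (fun _ => 0)).Nonempty} =
        ((hfin.toFinset.filter fun f => (PatR f T (fun _ => 0)).Nonempty :
          Finset (F[X] × F[X] × F[X])) : Set (F[X] × F[X] × F[X])) := by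
      ext f
      simp [hΦ]
    rw [h4, Set.ncard_coe_finset]
    have h5 := gdf_markov hfin.toFinset (fun f => ((PatR f T (fun _ => 0)).ncard : ℝ))
      (fun _ _ => Nat.cast_nonneg _) 1
      (hfin.toFinset.filter fun f => (PatR f T (fun _ => 0)).Nonempty)
      (Finset.filter_subset _ _) (by
        intro f hf
        rw [Finset.mem_filter, Set.Finite.mem_toFinset] at hf
        have h6 : 0 < (PatR f T (fun _ => 0)).ncard :=
          (Set.ncard_pos (h3a f hf.1)).2 hf.2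
        exact_mod_cast h6)
    rw [one_mul] at h5
    refine (h5.trans h3b).trans ?_
    refine mul_le_mul_of_nonneg_right ?_ (Nat.cast_nonneg _)
    have h7 : (2 : ℝ) / 2 ^ T.card + 1 / 2 ^ T.card = 3 / 2 ^ T.card := by ring
    rw [h7, div_le_div_iff₀ (by positivity) (by norm_num)]
    have h8 : 6 / ε < (k2 : ℝ) := hk2
    have h9 : (k2 : ℝ) ≤ 2 ^ T.card := by
      have h10 : k2 < 2 ^ T.card := by
        calc k2 ≤ T.card := by omega
          _ < 2 ^ T.card := Nat.lt_two_pow_self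
      exact_mod_cast h10.le
    have h11 : 6 / ε < 2 ^ T.card := h8.trans_le h9
    rw [div_lt_iff₀ hε] at h11
    linarith
  -- the other bad sets
  have hD2 : ∀ D2 : Finset F[X],
      ({f | f ∈ Φ ∧ ¬ (({D | D ∈ sl (sb T T1) (sb T D2) j ∪ sl (sb T T1) (sb T D2) (j + 1) ∧
        ∃ m : {P : F[X] // P ∈ T} → Ty, m ≠ 0 ∧ m ∈ LS D ∧ ¬ Bal η (sb T T1) D m ∧
        (PatR f T (ex T m)).Nonempty}.ncard : ℝ) ≤ η * ((2 * j + 1).choose j : ℝ))}.ncard : ℝ) ≤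
      ε / 4 * Φ.ncard := by
    intro D2
    refine gdf_one Φ hfin (fun f m => (PatR f T (ex T m)).Nonempty)
      (fun f m => ((PatR f T (ex T m)).ncard : ℝ)) (sb T T1) (sb T D2) j ?_ η ε hη hε
      (fun _ _ _ => Nat.cast_nonneg _) ?_ ?_ ?_
    · rw [gdf_sb_card T T1 Finset.subset_union_left, hT1]
    · intro f hf m hm hQ
      have h6 : 0 < (PatR f T (ex T m)).ncard :=
        (Set.ncard_pos ((hNN m hm n (hn' m)).2.1 f hf)).2 hQ
      have h7 : (1 : ℝ) ≤ ((PatR f T (ex T m)).ncard : ℝ) := by exact_mod_cast h6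
      exact h7
    · intro m hm
      rw [hXcard]
      exact (hNN m hm n (hn' m)).2.2
    · intro D
      exact hk1 _ (sb T T1) D (by
        rw [gdf_sb_card T T1 Finset.subset_union_left, hT1]
        omega)
  have hsub : {f | f ∈ Φ ∧ ¬ Good η T1 T2 j f} ⊆
      {f | f ∈ Φ ∧ (PatR f T (fun _ => 0)).Nonempty} ∪
      ({f | f ∈ Φ ∧ ¬ (({D | D ∈ sl (sb T T1) (sb T ∅) j ∪ sl (sb T T1) (sb T ∅) (j + 1) ∧
        ∃ m : {P : F[X] // P ∈ T} → Ty, m ≠ 0 ∧ m ∈ LS D ∧ ¬ Bal η (sb T T1) D m ∧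
        (PatR f T (ex T m)).Nonempty}.ncard : ℝ) ≤ η * ((2 * j + 1).choose j : ℝ))} ∪
      {f | f ∈ Φ ∧ ¬ (({D | D ∈ sl (sb T T1) (sb T T2) j ∪ sl (sb T T1) (sb T T2) (j + 1) ∧
        ∃ m : {P : F[X] // P ∈ T} → Ty, m ≠ 0 ∧ m ∈ LS D ∧ ¬ Bal η (sb T T1) D m ∧
        (PatR f T (ex T m)).Nonempty}.ncard : ℝ) ≤ η * ((2 * j + 1).choose j : ℝ))}) := by
    rintro f ⟨hf, hG⟩
    by_contra hcon
    simp only [Set.mem_union, Set.mem_ofPred_eq, not_or, not_and, not_not] at hcon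
    obtain ⟨c1, c2, c3⟩ := hcon
    apply hG
    refine ⟨Set.not_nonempty_iff_eq_empty.1 (c1 hf), ?_⟩
    rintro D2 (rfl | rfl)
    · exact c2 hf
    · exact c3 hf
  have hfs : ∀ p : F[X] × F[X] × F[X] → Prop, ({f | f ∈ Φ ∧ p f} : Set _).Finite := fun p =>
    hfin.subset fun f hf => hf.1
  have h12 := Set.ncard_le_ncard hsub (((hfs _).union ((hfs _).union (hfs _))))
  have h13 := h12.trans (Set.ncard_union_le _ _)
  have h14 := h13.trans (Nat.add_le_add_left (Set.ncard_union_le _ _) _)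
  have h15 : (({f | f ∈ Φ ∧ ¬ Good η T1 T2 j f}.ncard : ℕ) : ℝ) ≤ _ := Nat.cast_le.2 h14
  push_cast at h15
  have h16 := hD2 ∅
  have h17 := hD2 T2
  linarith

end Pool.PRL
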